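import Pool.Agent.H15.FLC.Targets
import Pool.Agent.H5.FLX.CHX

/-!
MP_c62aed_lc, cutting planes for random CNFs: row CHC (Chernoff and the union bound).
-/

set_option autoImplicit false

namespace Pool.Agent.H10.FLC

open Finset
open Pool.Agent.H15.FLC

section

variable {n k m : ℕ}

open Classical in
/-- the half clauses which are violated by `x` -/
theorem chc_half (x : Fin n → Bool) :
    (univ.filter fun c : Half n k => Violates c x).card * 2 ^ k = Fintype.card (Half n k) := by
  have h1 : (univ.filter fun c : Half n k => Violates c x).card =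
      ∑ A : {A : Finset (Fin n) // A.card = k},
        (univ.filter fun s : Fin n → Bool => ∀ i ∈ A.1, s i = !x i).card := by
    rw [Finset.card_filter, Fintype.sum_prod_type]
    refine Finset.sum_congr rfl fun A _ => ?_
    rw [Finset.card_filter]
    refine Finset.sum_congr rfl fun s _ => ?_
    have h2 : Violates ((A, s) : Half n k) x ↔ ∀ i ∈ A.1, s i = !x i := by
      unfold Violates
      refine forall_congr' fun i => forall_congr' fun _ => ?_
      show x i ≠ s i ↔ _
      cases x i <;> cases s i <;> simp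
    by_cases h3 : Violates ((A, s) : Half n k) x
    · rw [if_pos h3, if_pos (h2.1 h3)]
    · rw [if_neg h3, if_neg fun h4 => h3 (h2.2 h4)]
  rw [h1, Finset.sum_mul, Finset.sum_congr rfl fun A _ =>
    Pool.Agent.H5.FLX.chx_card A.1 A.2 x, Fintype.card_prod, Finset.sum_const, Finset.card_univ,
    smul_eq_mul]
  congr 1
  simp

variable (x y : Fin n → Bool) (ε : ℝ)

open Classical in
/-- the exponential weight -/
noncomputable def chc_w (c : Half n k × Half n k) : ℝ :=
  if Violates c.1 x ∧ Violates c.2 y then Real.exp (-ε) else 1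

theorem chc_w_pos (c : Half n k × Half n k) : 0 < chc_w x y ε c := by
  unfold chc_w
  split_ifs
  · exact Real.exp_pos _
  · exact one_pos

theorem chc_sum : ∑ c : Half n k × Half n k, chc_w x y ε c =
    (Fintype.card (Half n k × Half n k) : ℝ) * (1 - (1 - Real.exp (-ε)) / 4 ^ k) := by
  classical
  have h1 : ∀ c : Half n k × Half n k, chc_w x y ε c =
      1 - (if Violates c.1 x ∧ Violates c.2 y then (1 - Real.exp (-ε)) else 0) := by
    intro c
    unfold chc_w
    split_ifs <;> ring
  have h2 := chc_half (k := k) x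
  have h3 := chc_half (k := k) y
  have h4 : (univ.filter fun c : Half n k × Half n k => Violates c.1 x ∧ Violates c.2 y) =
      (univ.filter fun c : Half n k => Violates c x) ×ˢ
        (univ.filter fun c : Half n k => Violates c y) := by
    ext c
    simp
  have h5 : (((univ.filter fun c : Half n k × Half n k =>
      Violates c.1 x ∧ Violates c.2 y).card : ℕ) : ℝ) =
      (Fintype.card (Half n k × Half n k) : ℝ) / 4 ^ k := by
    rw [eq_div_iff (by positivity), h4, Finset.card_product, Fintype.card_prod, ← h2]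
    have h6 : (univ.filter fun c : Half n k => Violates c x).card * 2 ^ k =
        (univ.filter fun c : Half n k => Violates c y).card * 2 ^ k := h2.trans h3.symm
    have h7 : (4 : ℝ) ^ k = 2 ^ k * 2 ^ k := by
      rw [← mul_pow]
      norm_num
    have h8 : (univ.filter fun c : Half n k => Violates c x).card =
        (univ.filter fun c : Half n k => Violates c y).card :=
      Nat.eq_of_mul_eq_mul_right (by positivity) h6
    rw [← h8, h7]
    push_cast
    ring
  rw [Finset.sum_congr rfl fun c _ => h1 c, Finset.sum_sub_distrib, ← Finset.sum_filter,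
    Finset.sum_const, Finset.sum_const, nsmul_eq_mul, nsmul_eq_mul, h5, Finset.card_univ]
  ring

theorem chc_prod (F : Formula n k m) : ∏ j, chc_w x y ε (F j) =
    Real.exp (-ε * (Nat.card {j // False2 F j x y} : ℝ)) := by
  classical
  have h1 : ∀ j, chc_w x y ε (F j) = Real.exp (-ε * (if False2 F j x y then 1 else 0)) := by
    intro j
    unfold chc_w False2
    split_ifs
    · rw [mul_one]
    · rw [mul_zero, Real.exp_zero]
  rw [Finset.prod_congr rfl fun j _ => h1 j, ← Real.exp_sum, ← Finset.mul_sum]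
  congr 2
  rw [Nat.card_eq_fintype_card, Fintype.card_subtype, Finset.sum_boole]

theorem chc_N : (Nat.card (Formula n k m) : ℝ) =
    (Fintype.card (Half n k × Half n k) : ℝ) ^ m := by
  rw [Nat.card_eq_fintype_card, Fintype.card_pi, Finset.prod_const, Finset.card_univ,
    Fintype.card_fin]
  push_cast
  rfl

theorem chc_total (_h0 : 0 ≤ ε) : ∑ F : Formula n k m,
    Real.exp (-ε * (Nat.card {j // False2 F j x y} : ℝ)) ≤
      (Nat.card (Formula n k m) : ℝ) * Real.exp (-(1 - Real.exp (-ε)) * m / 4 ^ k) := by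
  classical
  have h1 : ∑ F : Formula n k m, Real.exp (-ε * (Nat.card {j // False2 F j x y} : ℝ)) =
      (∑ c : Half n k × Half n k, chc_w x y ε c) ^ m := by
    rw [Fintype.sum_pow]
    exact Finset.sum_congr rfl fun F _ => (chc_prod x y ε F).symm
  have h2 : (Fintype.card (Half n k × Half n k) : ℝ) * (1 - (1 - Real.exp (-ε)) / 4 ^ k) ≤
      (Fintype.card (Half n k × Half n k) : ℝ) * Real.exp (-(1 - Real.exp (-ε)) / 4 ^ k) := by
    have h3 := Real.add_one_le_exp (-(1 - Real.exp (-ε)) / 4 ^ k)
    refine mul_le_mul_of_nonneg_left ?_ (Nat.cast_nonneg _)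
    refine le_trans (le_of_eq ?_) h3
    ring
  have h4 : 0 ≤ ∑ c : Half n k × Half n k, chc_w x y ε c :=
    Finset.sum_nonneg fun c _ => (chc_w_pos x y ε c).le
  rw [h1]
  calc (∑ c : Half n k × Half n k, chc_w x y ε c) ^ m
      ≤ ((Fintype.card (Half n k × Half n k) : ℝ) *
          Real.exp (-(1 - Real.exp (-ε)) / 4 ^ k)) ^ m := by
        apply pow_le_pow_left₀ h4
        rw [chc_sum]
        exact h2
    _ = (Nat.card (Formula n k m) : ℝ) * Real.exp (-(1 - Real.exp (-ε)) * m / 4 ^ k) := by
        rw [mul_pow, ← Real.exp_nat_mul, chc_N]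
        congr 2
        ring

end

theorem pf_CHC : T_CHC := by
  classical
  intro ε n t k m h0 h1 ht hnt hbig
  set D : ℝ := (m : ℝ) / 4 ^ k with hD
  set N : ℝ := (Nat.card (Formula n k m) : ℝ) with hN
  have hN0 : 0 ≤ N := Nat.cast_nonneg _
  have hDε : 8 * (t : ℝ) ≤ ε ^ 2 * D := by
    rw [hD, ← mul_div_assoc, le_div_iff₀ (by positivity)]
    linarith
  have hD0 : 0 ≤ D := by positivity
  -- the bad formulas
  let Bx : (Fin n → Bool) × (Fin n → Bool) → Finset (Formula n k m) := fun p =>
    univ.filter fun F => (Nat.card {j // False2 F j p.1 p.2} : ℝ) < (1 - ε) * m / 4 ^ k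
  have hBx : ∀ p, ((Bx p).card : ℝ) ≤ N * Real.exp (-4 * t) := by
    intro p
    have h2 := chc_total (m := m) (k := k) p.1 p.2 ε h0.le
    have h3 : ((Bx p).card : ℝ) * Real.exp (-ε * ((1 - ε) * m / 4 ^ k)) ≤
        ∑ F : Formula n k m, Real.exp (-ε * (Nat.card {j // False2 F j p.1 p.2} : ℝ)) := by
      rw [← nsmul_eq_mul]
      refine (Finset.card_nsmul_le_sum (Bx p) (fun F =>
        Real.exp (-ε * (Nat.card {j // False2 F j p.1 p.2} : ℝ))) _ ?_).trans
        (Finset.sum_le_sum_of_subset_of_nonneg (Finset.subset_univ _)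
          fun F _ _ => (Real.exp_pos _).le)
      intro F hF
      have h4 := (Finset.mem_filter.1 hF).2
      apply Real.exp_le_exp.2
      nlinarith
    have h5 : ((Bx p).card : ℝ) ≤ N * Real.exp (-(1 - Real.exp (-ε)) * m / 4 ^ k) *
        Real.exp (ε * ((1 - ε) * m / 4 ^ k)) := by
      have h6 : 0 < Real.exp (ε * ((1 - ε) * m / 4 ^ k)) := Real.exp_pos _
      have h7 : Real.exp (-ε * ((1 - ε) * m / 4 ^ k)) *
          Real.exp (ε * ((1 - ε) * m / 4 ^ k)) = 1 := by
        rw [← Real.exp_add, neg_mul, neg_add_cancel, Real.exp_zero]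
      calc ((Bx p).card : ℝ) = ((Bx p).card : ℝ) * Real.exp (-ε * ((1 - ε) * m / 4 ^ k)) *
            Real.exp (ε * ((1 - ε) * m / 4 ^ k)) := by rw [mul_assoc, h7, mul_one]
        _ ≤ _ := mul_le_mul_of_nonneg_right (h3.trans h2) h6.le
    refine h5.trans ?_
    rw [mul_assoc, ← Real.exp_add]
    refine mul_le_mul_of_nonneg_left (Real.exp_le_exp.2 ?_) hN0
    have h8 : -(1 - Real.exp (-ε)) * m / 4 ^ k + ε * ((1 - ε) * m / 4 ^ k) =
        (Real.exp (-ε) - 1 + ε - ε ^ 2) * D := by
      rw [hD]
      ring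
    rw [h8]
    have h9 := Pool.Agent.H53.MC.exp_neg_quad h0.le
    have h10 : Real.exp (-ε) - 1 + ε - ε ^ 2 ≤ -(ε ^ 2 / 2) := by linarith
    have h12 : (Real.exp (-ε) - 1 + ε - ε ^ 2) * D ≤ -(ε ^ 2 / 2) * D :=
      mul_le_mul_of_nonneg_right h10 hD0
    linarith
  have hsub : Nat.card {F : Formula n k m //
      ∃ x y, (Nat.card {c // False2 F c x y} : ℝ) < (1 - ε) * m / 4 ^ k} ≤
      (univ.biUnion Bx).card := by
    rw [Nat.card_eq_fintype_card, Fintype.card_subtype]
    refine Finset.card_le_card fun F hF => ?_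
    obtain ⟨x, y, hx⟩ := (Finset.mem_filter.1 hF).2
    exact Finset.mem_biUnion.2 ⟨(x, y), Finset.mem_univ _,
      Finset.mem_filter.2 ⟨Finset.mem_univ _, hx⟩⟩
  have h17 : ((univ.biUnion Bx).card : ℝ) ≤
      ∑ p : (Fin n → Bool) × (Fin n → Bool), ((Bx p).card : ℝ) := by
    exact_mod_cast Finset.card_biUnion_le
  have h18 : ∑ p : (Fin n → Bool) × (Fin n → Bool), ((Bx p).card : ℝ) ≤
      2 ^ n * 2 ^ n * (N * Real.exp (-4 * t)) := by
    refine (Finset.sum_le_sum fun p _ => hBx p).trans ?_
    rw [Finset.sum_const, Finset.card_univ, nsmul_eq_mul]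
    simp
  have h19 : (2 : ℝ) ^ t * (2 ^ n * 2 ^ n * Real.exp (-4 * t)) ≤ 1 := by
    have h20 : (2 : ℝ) ^ n ≤ 2 ^ t := pow_le_pow_right₀ (by norm_num) hnt
    have h21 : Real.exp (-4 * (t : ℝ)) = (Real.exp (-4)) ^ t := by
      rw [← Real.exp_nat_mul]
      congr 1
      ring
    have h22 : Real.exp (-4) ≤ 1 / 8 := by
      rw [Real.exp_neg, one_div]
      apply inv_anti₀ (by norm_num)
      have := Real.exp_one_gt_d9
      have h23 : Real.exp 4 = (Real.exp 1 * Real.exp 1) * (Real.exp 1 * Real.exp 1) := by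
        rw [← Real.exp_add, ← Real.exp_add]
        norm_num
      have h24 : (4 : ℝ) ≤ Real.exp 1 * Real.exp 1 := by nlinarith
      rw [h23]
      nlinarith
    have h24 : Real.exp (-4) ^ t ≤ (1 / 8) ^ t :=
      pow_le_pow_left₀ (Real.exp_pos _).le h22 t
    rw [h21]
    calc (2 : ℝ) ^ t * (2 ^ n * 2 ^ n * Real.exp (-4) ^ t)
        ≤ 2 ^ t * (2 ^ t * 2 ^ t * (1 / 8) ^ t) :=
          mul_le_mul_of_nonneg_left (mul_le_mul (mul_le_mul h20 h20 (by positivity)
            (by positivity)) h24 (by positivity) (by positivity)) (by positivity)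
      _ = 1 := by
          rw [← mul_pow, ← mul_pow, ← mul_pow]
          norm_num
  have h30 : (2 : ℝ) ^ t * ((univ.biUnion Bx).card : ℝ) ≤ N := by
    calc (2 : ℝ) ^ t * ((univ.biUnion Bx).card : ℝ)
        ≤ 2 ^ t * (2 ^ n * 2 ^ n * (N * Real.exp (-4 * t))) :=
          mul_le_mul_of_nonneg_left (h17.trans h18) (by positivity)
      _ = (2 ^ t * (2 ^ n * 2 ^ n * Real.exp (-4 * t))) * N := by ring
      _ ≤ 1 * N := mul_le_mul_of_nonneg_right h19 hN0
      _ = N := one_mul N
  have h31 : 2 ^ t * (univ.biUnion Bx).card ≤ Nat.card (Formula n k m) := by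
    rw [hN] at h30
    exact_mod_cast h30
  exact (Nat.mul_le_mul_left _ hsub).trans h31

end Pool.Agent.H10.FLC
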